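import Pool.Agent.Q218.LE.Stm

/-! # LE-THL: the correlation of the resolvent with its shift (helper285) -/

set_option autoImplicit false

open scoped BigOperators
open MeasureTheory

namespace Pool.Agent.Q285.LE

open Pool.Agent.TH794.QD (rv mv rv_mono rv_mul rv_add mv_re)

/-- the pointwise inequality -/
theorem pt {X b ω C B2 : ℝ} (hω : 0 < ω) (hC : 2 ≤ C) (hb : b ^ 2 ≤ B2) (hB : 0 ≤ B2) :
    b ^ 2 * (X ^ 2 + ω ^ 2)⁻¹ - B2 * (2 / (C * ω)) * ((C * ω) / (X ^ 2 + (C * ω) ^ 2)) ≤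
      (2 * C ^ 2 * ω ^ 2 + 2 * B2) *
        (b ^ 2 * ((X ^ 2 + ω ^ 2)⁻¹ * ((X - b) ^ 2 + ω ^ 2)⁻¹)) := by
  have hC0 : 0 < C := by linarith
  have hCω : 0 < C * ω := mul_pos hC0 hω
  have hp : 0 < X ^ 2 + ω ^ 2 := by positivity
  have hq : 0 < (X - b) ^ 2 + ω ^ 2 := by positivity
  have hr : 0 < X ^ 2 + (C * ω) ^ 2 := by positivity
  have e1 : B2 * (2 / (C * ω)) * ((C * ω) / (X ^ 2 + (C * ω) ^ 2)) =
      B2 * (2 / (X ^ 2 + (C * ω) ^ 2)) := by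
    field_simp
  rw [e1]
  by_cases h : X ^ 2 + ω ^ 2 ≤ C ^ 2 * ω ^ 2
  · have h1 : (X - b) ^ 2 + ω ^ 2 ≤ 2 * C ^ 2 * ω ^ 2 + 2 * B2 := by
      nlinarith [sq_nonneg (X + b), sq_nonneg ω]
    have h2 : 1 ≤ (2 * C ^ 2 * ω ^ 2 + 2 * B2) * ((X - b) ^ 2 + ω ^ 2)⁻¹ := by
      rw [← div_eq_mul_inv, one_le_div hq]
      exact h1
    have h3 : 0 ≤ b ^ 2 * (X ^ 2 + ω ^ 2)⁻¹ := by positivity
    have h4 := mul_le_mul_of_nonneg_left h2 h3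
    have h5 : 0 ≤ B2 * (2 / (X ^ 2 + (C * ω) ^ 2)) := by positivity
    calc b ^ 2 * (X ^ 2 + ω ^ 2)⁻¹ - B2 * (2 / (X ^ 2 + (C * ω) ^ 2))
        ≤ b ^ 2 * (X ^ 2 + ω ^ 2)⁻¹ * 1 := by linarith
      _ ≤ b ^ 2 * (X ^ 2 + ω ^ 2)⁻¹ *
          ((2 * C ^ 2 * ω ^ 2 + 2 * B2) * ((X - b) ^ 2 + ω ^ 2)⁻¹) := h4
      _ = _ := by ring
  · have h1 : (X ^ 2 + ω ^ 2)⁻¹ ≤ 2 / (X ^ 2 + (C * ω) ^ 2) := by
      rw [inv_eq_one_div, div_le_div_iff₀ hp hr]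
      nlinarith [not_le.1 h, sq_nonneg X, sq_nonneg ω]
    have h2 : b ^ 2 * (X ^ 2 + ω ^ 2)⁻¹ ≤ B2 * (2 / (X ^ 2 + (C * ω) ^ 2)) :=
      mul_le_mul hb h1 (by positivity) hB
    have h3 : 0 ≤ (2 * C ^ 2 * ω ^ 2 + 2 * B2) *
        (b ^ 2 * ((X ^ 2 + ω ^ 2)⁻¹ * ((X - b) ^ 2 + ω ^ 2)⁻¹)) := by positivity
    linarith

theorem t_THL : Pool.Agent.Q218.LE.S_THL := by
  intro ι _ N ω B2 c2 C0 C x b sh hN hω hB hc hCe hC hsh hb h1 h2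
  have hC0 : 0 < C := by linarith
  have hCω : 0 < C * ω := mul_pos hC0 hω
  have hD : 0 < 2 * C ^ 2 * ω ^ 2 + 2 * B2 := by positivity
  obtain ⟨n, hn⟩ : ∃ n : ℝ → ℝ, n = fun X => (X ^ 2 + ω ^ 2)⁻¹ := ⟨_, rfl⟩
  have hne : ∀ X : ℝ, X ^ 2 + ω ^ 2 ≠ 0 := fun X => by positivity
  have hz : ∀ X : ℝ, Complex.normSq ((X : ℂ) - (ω : ℂ) * Complex.I) = X ^ 2 + ω ^ 2 := by
    intro X
    rw [Complex.normSq_apply]
    simp
    ring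
  have e1 : ∀ X : ℝ, ‖((X : ℂ) - (ω : ℂ) * Complex.I)⁻¹‖ ^ 2 = n X := by
    intro X
    rw [norm_inv, inv_pow, ← Complex.normSq_eq_norm_sq, hz, hn]
  have e2 : ∀ X Y : ℝ, ((starRingEnd ℂ) (((X : ℂ) - (ω : ℂ) * Complex.I)⁻¹) *
      ((Y : ℂ) - (ω : ℂ) * Complex.I)⁻¹).re =
      1 / 2 * (n X + n Y - (X - Y) ^ 2 * (n X * n Y)) := by
    intro X Y
    rw [map_inv₀, Complex.mul_re, Complex.inv_re, Complex.inv_re, Complex.inv_im, Complex.inv_im,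
      Complex.normSq_conj, hz, hz, hn]
    have hX := hne X
    have hY := hne Y
    simp
    field_simp
    ring
  have e3 : (mv N fun k => (starRingEnd ℂ) ((((x k : ℝ) : ℂ) - (ω : ℂ) * Complex.I)⁻¹) *
        (((x (sh k) : ℝ) : ℂ) - (ω : ℂ) * Complex.I)⁻¹).re =
      rv N (fun k => n (x k)) - 1 / 2 * rv N (fun k => b k ^ 2 * (n (x k) * n (x k - b k))) := by
    rw [mv_re]
    simp only [e2]
    have s1 : rv N (fun k => n (x (sh k))) = rv N (fun k => n (x k)) := by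
      unfold rv
      rw [Equiv.sum_comp sh (fun k => n (x k))]
    have s2 : rv N (fun k => 1 / 2 * (n (x k) + n (x (sh k)) -
        (x k - x (sh k)) ^ 2 * (n (x k) * n (x (sh k))))) =
        1 / 2 * (rv N (fun k => n (x k)) + rv N (fun k => n (x (sh k))) -
          rv N (fun k => b k ^ 2 * (n (x k) * n (x k - b k)))) := by
      rw [rv_mul]
      have s3 : ∀ k, n (x k) + n (x (sh k)) - (x k - x (sh k)) ^ 2 * (n (x k) * n (x (sh k))) =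
          (n (x k) + n (x (sh k))) + (-1) * (b k ^ 2 * (n (x k) * n (x k - b k))) := by
        intro k
        rw [hsh k]
        ring
      simp only [s3]
      rw [rv_add, rv_add, rv_mul]
      ring
    rw [s2, s1]
    ring
  rw [e3]
  simp only [e1]
  have h3 : rv N (fun k => b k ^ 2 * (x k ^ 2 + ω ^ 2)⁻¹ -
      B2 * (2 / (C * ω)) * ((C * ω) / (x k ^ 2 + (C * ω) ^ 2))) ≤
      rv N (fun k => (2 * C ^ 2 * ω ^ 2 + 2 * B2) *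
        (b k ^ 2 * ((x k ^ 2 + ω ^ 2)⁻¹ * ((x k - b k) ^ 2 + ω ^ 2)⁻¹))) :=
    rv_mono hN fun k => pt hω hC (hb k) hB
  have h4 : rv N (fun k => b k ^ 2 * (x k ^ 2 + ω ^ 2)⁻¹ -
      B2 * (2 / (C * ω)) * ((C * ω) / (x k ^ 2 + (C * ω) ^ 2))) =
      ω⁻¹ * rv N (fun k => b k ^ 2 * (ω / (x k ^ 2 + ω ^ 2))) -
      B2 * (2 / (C * ω)) * rv N (fun k => (C * ω) / (x k ^ 2 + (C * ω) ^ 2)) := by
    have s4 : ∀ k, b k ^ 2 * (x k ^ 2 + ω ^ 2)⁻¹ -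
        B2 * (2 / (C * ω)) * ((C * ω) / (x k ^ 2 + (C * ω) ^ 2)) =
        ω⁻¹ * (b k ^ 2 * (ω / (x k ^ 2 + ω ^ 2))) +
        (-(B2 * (2 / (C * ω)))) * ((C * ω) / (x k ^ 2 + (C * ω) ^ 2)) := by
      intro k
      have : ω⁻¹ * (b k ^ 2 * (ω / (x k ^ 2 + ω ^ 2))) = b k ^ 2 * (x k ^ 2 + ω ^ 2)⁻¹ := by
        field_simp
      rw [this]
      ring
    simp only [s4]
    rw [rv_add, rv_mul, rv_mul]
    ring
  rw [h4, rv_mul] at h3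
  have h5 : ω⁻¹ * (c2 * B2) ≤ ω⁻¹ * rv N (fun k => b k ^ 2 * (ω / (x k ^ 2 + ω ^ 2))) :=
    mul_le_mul_of_nonneg_left h1 (by positivity)
  have h6 : B2 * (2 / (C * ω)) * rv N (fun k => (C * ω) / (x k ^ 2 + (C * ω) ^ 2)) ≤
      B2 * (2 / (C * ω)) * C0 := mul_le_mul_of_nonneg_left h2 (by positivity)
  have h7 : B2 * (2 / (C * ω)) * C0 = ω⁻¹ * (c2 * B2) / 2 := by
    have : C0 = C * c2 / 4 := by
      rw [hCe]
      field_simp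
    rw [this]
    field_simp
    try ring
  have h8 : rv N (fun k => b k ^ 2 * (n (x k) * n (x k - b k))) =
      rv N (fun k => b k ^ 2 * ((x k ^ 2 + ω ^ 2)⁻¹ * ((x k - b k) ^ 2 + ω ^ 2)⁻¹)) := by
    rw [hn]
  rw [h8]
  have h9 : ω⁻¹ * (c2 * B2) / 2 ≤ (2 * C ^ 2 * ω ^ 2 + 2 * B2) *
      rv N (fun k => b k ^ 2 * ((x k ^ 2 + ω ^ 2)⁻¹ * ((x k - b k) ^ 2 + ω ^ 2)⁻¹)) := by
    linarith
  have h10 : c2 * B2 / (2 * ω * (2 * C ^ 2 * ω ^ 2 + 2 * B2)) ≤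
      rv N (fun k => b k ^ 2 * ((x k ^ 2 + ω ^ 2)⁻¹ * ((x k - b k) ^ 2 + ω ^ 2)⁻¹)) := by
    have : c2 * B2 / (2 * ω * (2 * C ^ 2 * ω ^ 2 + 2 * B2)) =
        (ω⁻¹ * (c2 * B2) / 2) / (2 * C ^ 2 * ω ^ 2 + 2 * B2) := by
      field_simp
    rw [this, div_le_iff₀ hD]
    linarith
  linarith

end Pool.Agent.Q285.LE
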